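import Pool.Agent.N756.QL.StaP

set_option autoImplicit false

/-! Project QL (helper728), stage A: the assembly (helper756). -/

namespace Pool.Agent.N756.QL

open Finset Pool.Agent.N728.QL Filter Topology

noncomputable section

lemma exists_root (k B : ℕ) (hk : 1 ≤ k) : ∃ z1 : ℕ, z1 ^ k ≤ B ∧ B < (z1 + 1) ^ k := by
  classical
  have hex : ∃ n : ℕ, B < (n + 1) ^ k :=
    ⟨B, (Nat.lt_succ_self B).trans_le (Nat.le_self_pow (by omega) _)⟩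
  refine ⟨Nat.find hex, ?_, Nat.find_spec hex⟩
  rcases Nat.eq_zero_or_pos (Nat.find hex) with h | h
  · rw [h, zero_pow (by omega)]
    exact Nat.zero_le _
  · have h1 : ¬ B < (Nat.find hex - 1 + 1) ^ k := Nat.find_min hex (Nat.sub_lt h one_pos)
    have h2 : Nat.find hex - 1 + 1 = Nat.find hex := Nat.sub_add_cancel h
    rw [h2] at h1
    exact not_lt.1 h1

/-- the choice of `k` -/
lemma choose_k (KO k00 : ℕ) (hKO : 1 ≤ KO) (C1 G κ CB ε : ℝ) (hε : 0 < ε) :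
    ∃ k : ℕ, k00 ≤ k ∧ 2 ≤ k ∧
      (KO : ℝ) * C1 * (2 * (k : ℝ) ^ 60) ^ (KO + 4) * (2 : ℝ) ^ (-((k : ℝ) / KO)) ≤ 1 ∧
      24 * κ * CB / k ≤ ε / 2 ∧ κ * √(G / k) ≤ ε / 2 := by
  have hKOr : (1 : ℝ) ≤ KO := by exact_mod_cast hKO
  set r : ℝ := (2 : ℝ) ^ (-(1 / (KO : ℝ))) with hr
  have hr0 : 0 < r := Real.rpow_pos_of_pos two_pos _
  have hr1 : r < 1 := by
    rw [hr]
    apply Real.rpow_lt_one_of_one_lt_of_neg (by norm_num)
    have : 0 < 1 / (KO : ℝ) := by positivity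
    linarith
  have t1 : Tendsto (fun k : ℕ => (KO : ℝ) * C1 * (2 * (k : ℝ) ^ 60) ^ (KO + 4) *
      (2 : ℝ) ^ (-((k : ℝ) / KO))) atTop (𝓝 0) := by
    have h := (tendsto_pow_const_mul_const_pow_of_abs_lt_one (60 * (KO + 4)) (r := r)
      (by rw [abs_of_pos hr0]; exact hr1)).const_mul ((KO : ℝ) * C1 * 2 ^ (KO + 4))
    rw [mul_zero] at h
    refine h.congr fun k => ?_
    have e : (2 : ℝ) ^ (-((k : ℝ) / KO)) = r ^ k := by
      rw [hr, ← Real.rpow_natCast, ← Real.rpow_mul (by norm_num)]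
      congr 1
      ring
    rw [e, mul_pow, ← pow_mul]
    ring
  have t2 : Tendsto (fun k : ℕ => 24 * κ * CB / (k : ℝ)) atTop (𝓝 0) :=
    tendsto_const_div_atTop_nhds_zero_nat _
  have t3 : Tendsto (fun k : ℕ => κ * √(G / (k : ℝ))) atTop (𝓝 0) := by
    have h := ((tendsto_const_div_atTop_nhds_zero_nat G).sqrt).const_mul κ
    rwa [Real.sqrt_zero, mul_zero] at h
  have h1 := t1.eventually (Iio_mem_nhds zero_lt_one)
  have h2 := t2.eventually (Iio_mem_nhds (half_pos hε))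
  have h3 := t3.eventually (Iio_mem_nhds (half_pos hε))
  have h4 := eventually_ge_atTop (α := ℕ) k00
  have h5 := eventually_ge_atTop (α := ℕ) 2
  obtain ⟨k, ⟨⟨⟨a1, a2⟩, a3⟩, a4⟩, a5⟩ := ((((h1.and h2).and h3).and h4).and h5).exists
  exact ⟨k, a4, a5, le_of_lt a1, le_of_lt a2, le_of_lt a3⟩

/-- the numerical part of EK -/
lemma ek_num {k : ℕ} (hk : 2 ≤ k) {L : ℝ} (hL : (k : ℝ) ^ 60 ≤ L) :
    ((1 + 1 / (k : ℝ) ^ 2) - 1) ^ (-(1 / 2) : ℝ) * Real.log ((k ^ 2 : ℕ) : ℝ) ^ (3 / 5 : ℝ) *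
      L ^ (-(1 / 12) : ℝ) ≤ 1 / (k : ℝ) ^ 3 := by
  have hk' : (2 : ℝ) ≤ k := by exact_mod_cast hk
  have hk0 : (0 : ℝ) < k := by linarith
  have e1 : ((1 + 1 / (k : ℝ) ^ 2) - 1) ^ (-(1 / 2) : ℝ) = k := by
    have : (1 + 1 / (k : ℝ) ^ 2) - 1 = (k : ℝ) ^ (-2 : ℝ) := by
      rw [Real.rpow_neg hk0.le]
      have : (k : ℝ) ^ (2 : ℝ) = (k : ℝ) ^ 2 := by
        rw [← Real.rpow_natCast]
        norm_num
      rw [this]
      ring
    rw [this, ← Real.rpow_mul hk0.le]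
    norm_num
  have e2 : Real.log ((k ^ 2 : ℕ) : ℝ) ^ (3 / 5 : ℝ) ≤ k := by
    have h1 : Real.log ((k ^ 2 : ℕ) : ℝ) ≤ k := by
      push_cast
      rw [Real.log_pow]
      push_cast
      have h2 : Real.log k = Real.log (k / 2) + Real.log 2 := by
        rw [← Real.log_mul (by positivity) (by norm_num)]
        congr 1
        ring
      have h3 : Real.log ((k : ℝ) / 2) ≤ k / 2 - 1 := Real.log_le_sub_one_of_pos (by positivity)
      have h4 := Real.log_two_lt_d9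
      linarith
    have h0 : 0 ≤ Real.log ((k ^ 2 : ℕ) : ℝ) := Real.log_natCast_nonneg _
    calc Real.log ((k ^ 2 : ℕ) : ℝ) ^ (3 / 5 : ℝ) ≤ (k : ℝ) ^ (3 / 5 : ℝ) :=
          Real.rpow_le_rpow h0 h1 (by norm_num)
      _ ≤ (k : ℝ) ^ (1 : ℝ) := Real.rpow_le_rpow_of_exponent_le (by linarith) (by norm_num)
      _ = k := Real.rpow_one _
  have e3 : L ^ (-(1 / 12) : ℝ) ≤ 1 / (k : ℝ) ^ 5 := by
    calc L ^ (-(1 / 12) : ℝ) ≤ ((k : ℝ) ^ 60) ^ (-(1 / 12) : ℝ) :=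
          Real.rpow_le_rpow_of_nonpos (by positivity) hL (by norm_num)
      _ = 1 / (k : ℝ) ^ 5 := by
          have h60 : (k : ℝ) ^ 60 = (k : ℝ) ^ (60 : ℝ) := by
            rw [← Real.rpow_natCast]
            norm_num
          have h5 : (60 : ℝ) * (-(1 / 12)) = -((5 : ℕ) : ℝ) := by norm_num
          rw [h60, ← Real.rpow_mul hk0.le, h5, Real.rpow_neg hk0.le, Real.rpow_natCast, one_div]
  have hL0 : 0 ≤ L ^ (-(1 / 12) : ℝ) := Real.rpow_nonneg (le_trans (by positivity) hL) _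
  rw [e1]
  calc (k : ℝ) * Real.log ((k ^ 2 : ℕ) : ℝ) ^ (3 / 5 : ℝ) * L ^ (-(1 / 12) : ℝ) ≤
        (k : ℝ) * k * (1 / (k : ℝ) ^ 5) := by
        refine mul_le_mul (mul_le_mul_of_nonneg_left e2 hk0.le) e3 hL0 (by positivity)
    _ = 1 / (k : ℝ) ^ 3 := by
        field_simp

lemma q_dvd {a : ℤ} (ha : a ≠ 0) {z M0 M m m' : ℕ} (hM1 : 1 ≤ M) (hM : M ≤ M0) (hm : m ∣ M)
    (hm' : m' ∣ M) (hne : m ≠ m') :
    ((PP 0 z : ℤ) * (a * M * ((m : ℤ) ^ 2 - (m' : ℤ) ^ 2))) ∣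
      ((PP 0 z * (a.natAbs * M0 ^ 3).factorial : ℕ) : ℤ) := by
  rw [Nat.cast_mul]
  apply mul_dvd_mul_left
  rw [← Int.natAbs_dvd, Int.natCast_dvd_natCast]
  have h1 : 1 ≤ m := Nat.pos_of_dvd_of_pos hm hM1
  have h2 : 1 ≤ m' := Nat.pos_of_dvd_of_pos hm' hM1
  have h3 : m ≤ M0 := (Nat.le_of_dvd hM1 hm).trans hM
  have h4 : m' ≤ M0 := (Nat.le_of_dvd hM1 hm').trans hM
  apply Nat.dvd_factorial
  · rw [Nat.pos_iff_ne_zero, Int.natAbs_ne_zero]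
    refine mul_ne_zero (mul_ne_zero ha (by positivity)) ?_
    intro h
    have h5 : (m : ℤ) ^ 2 = (m' : ℤ) ^ 2 := by linarith
    have h6 : m ^ 2 = m' ^ 2 := by exact_mod_cast h5
    exact hne (Nat.pow_left_injective (by norm_num) h6)
  · rw [Int.natAbs_mul, Int.natAbs_mul, Int.natAbs_natCast]
    have h5 : ((m : ℤ) ^ 2 - (m' : ℤ) ^ 2).natAbs ≤ M0 ^ 2 := by
      have a1 : m ^ 2 ≤ M0 ^ 2 := Nat.pow_le_pow_left h3 2
      have a2 : m' ^ 2 ≤ M0 ^ 2 := Nat.pow_le_pow_left h4 2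
      have a3 : (m : ℤ) ^ 2 = ((m ^ 2 : ℕ) : ℤ) := by push_cast; rfl
      have a4 : (m' : ℤ) ^ 2 = ((m' ^ 2 : ℕ) : ℤ) := by push_cast; rfl
      rw [a3, a4]
      omega
    calc a.natAbs * M * ((m : ℤ) ^ 2 - (m' : ℤ) ^ 2).natAbs ≤ a.natAbs * M0 * M0 ^ 2 :=
          Nat.mul_le_mul (Nat.mul_le_mul_left _ hM) h5
      _ = a.natAbs * M0 ^ 3 := by ring

/-- the choice of `M0` -/
lemma choose_M0 {L CB : ℝ} {k : ℕ} (hk : 2 ≤ k) (hL : 1 ≤ L) :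
    ∃ M0 : ℕ, 1 ≤ M0 ∧ L ^ CB * Real.exp (-(Real.log M0 / (2 * L))) ≤ 1 / (k : ℝ) ^ 2 := by
  have hk' : (2 : ℝ) ≤ k := by exact_mod_cast hk
  have hk0 : (0 : ℝ) < k := by linarith
  have hL0 : 0 < L := by linarith
  have hLC : 0 < L ^ CB := Real.rpow_pos_of_pos hL0 _
  set t : ℝ := 2 * L * Real.log ((k : ℝ) ^ 2 * L ^ CB) with ht
  refine ⟨⌈Real.exp t⌉₊, Nat.ceil_pos.2 (Real.exp_pos t), ?_⟩
  have h1 : Real.exp t ≤ (⌈Real.exp t⌉₊ : ℝ) := Nat.le_ceil _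
  have h2 : t ≤ Real.log (⌈Real.exp t⌉₊ : ℝ) := by
    rw [Real.le_log_iff_exp_le (lt_of_lt_of_le (Real.exp_pos t) h1)]
    exact h1
  have h3 : -(Real.log (⌈Real.exp t⌉₊ : ℝ) / (2 * L)) ≤ -Real.log ((k : ℝ) ^ 2 * L ^ CB) := by
    rw [neg_le_neg_iff, le_div_iff₀ (by positivity)]
    calc Real.log ((k : ℝ) ^ 2 * L ^ CB) * (2 * L) = t := by rw [ht]; ring
      _ ≤ _ := h2
  calc L ^ CB * Real.exp (-(Real.log (⌈Real.exp t⌉₊ : ℝ) / (2 * L))) ≤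
        L ^ CB * Real.exp (-Real.log ((k : ℝ) ^ 2 * L ^ CB)) :=
        mul_le_mul_of_nonneg_left (Real.exp_le_exp.2 h3) hLC.le
    _ = 1 / (k : ℝ) ^ 2 := by
        rw [Real.exp_neg, Real.exp_log (by positivity)]
        field_simp

/-- the support of `ph` -/
lemma ph_zero {a : ℤ} {B T : ℕ} {F : ℤ → ℝ} (hT : 2 * a.natAbs * T ≤ B) (hF : Adm F B) :
    (∀ u v, u ≤ T → 4 * B < v → ph a T F u v = 0) ∧ (∀ u v, 2 * v < B → ph a T F u v = 0) := by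
  have key : ∀ u : ℕ, u ≤ T → 2 * |a * (u : ℤ)| ≤ B := by
    intro u hu
    rw [abs_mul, Nat.abs_cast, ← Int.natCast_natAbs]
    have h1 : 2 * a.natAbs * u ≤ B := (Nat.mul_le_mul_left _ hu).trans hT
    calc (2 : ℤ) * ((a.natAbs : ℤ) * u) = ((2 * a.natAbs * u : ℕ) : ℤ) := by push_cast; ring
      _ ≤ (B : ℤ) := by exact_mod_cast h1
  constructor
  · intro u v hu hv
    unfold ph
    rw [if_pos hu]
    apply hF.2
    have h1 := key u hu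
    have h2 := le_abs_self (a * (u : ℤ))
    have h3 := neg_abs_le (a * (u : ℤ))
    have h4 : (4 : ℤ) * B < v := by exact_mod_cast hv
    intro h
    linarith [h.1, h.2]
  · intro u v hv
    unfold ph
    split_ifs with hu
    · apply hF.2
      have h1 := key u hu
      have h2 := le_abs_self (a * (u : ℤ))
      have h3 := neg_abs_le (a * (u : ℤ))
      have h4 : (2 : ℤ) * v < B := by exact_mod_cast hv
      intro h
      linarith [h.1, h.2]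
    · rfl

open Classical in
theorem t_A (hORB : S_ORB) (hEK : S_EK) (hMER : S_MER) (hU1 : ∀ c : ℤ, c ≠ 0 → S_U1 c)
    (hBAD : ∀ c : ℤ, c ≠ 0 → S_BAD c) (hOFF : ∀ a c : ℤ, a ≠ 0 → c ≠ 0 → S_OFF a c)
    (hSP : ∀ a c : ℤ, a ≠ 0 → c ≠ 0 → S_SP a c) : ∀ a c : ℤ, a ≠ 0 → c ≠ 0 → S_A a c := by
  intro a c ha hc ε hε
  obtain ⟨κ, hκ, hOC⟩ := orbC hORB hMER
  obtain ⟨CE, hCE, hEK⟩ := hEK
  obtain ⟨CM, hCM, hM1, -⟩ := hMER
  obtain ⟨CU, hCU, kU, BU, hU⟩ := hU1 c hc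
  obtain ⟨CB, hCB, kB, BB, hBd⟩ := hBAD c hc
  obtain ⟨KO, hKO, hO⟩ := hOFF a c ha hc
  have hSPc := hSP a c ha hc
  set G : ℝ := 8 * CU * CE * (8 * CU + 8) with hG
  have hG0 : 0 < G := by positivity
  obtain ⟨k, hk00, hk2, q1, q2, q3⟩ := choose_k KO (kU + kB + KO + a.natAbs + c.natAbs) hKO (CM ^ 4) G κ CB ε hε
  have hkU : kU ≤ k := by omega
  have hkB : kB ≤ k := by omega
  have hkO : KO ≤ k := by omega
  have hka : a.natAbs ≤ k := by omega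
  have hkc : c.natAbs ≤ k := by omega
  have hkr : (2 : ℝ) ≤ k := by exact_mod_cast hk2
  have hk0 : (0 : ℝ) < k := by linarith
  obtain ⟨w, hw⟩ : ∃ w : ℕ, w = k ^ 2 := ⟨_, rfl⟩
  have hkw : k ≤ w := by
    rw [hw]
    exact Nat.le_self_pow (by norm_num) k
  have hw4 : 4 ≤ w := by
    rw [hw]
    calc 4 = 2 ^ 2 := by norm_num
      _ ≤ k ^ 2 := Nat.pow_le_pow_left hk2 2
  obtain ⟨ρ, hρ⟩ : ∃ ρ : ℝ, ρ = 1 + 1 / (k : ℝ) ^ 2 := ⟨_, rfl⟩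
  have hik : 0 < 1 / (k : ℝ) ^ 2 := by positivity
  have hik2 : 1 / (k : ℝ) ^ 2 ≤ 1 := by
    rw [div_le_one (by positivity)]
    exact one_le_pow₀ (by linarith)
  have hρ1 : 1 < ρ := by rw [hρ]; linarith
  have hρ2 : ρ ≤ 2 := by rw [hρ]; linarith
  obtain ⟨y, hy⟩ : ∃ y : ℕ, y = ⌈Real.exp ((k : ℝ) ^ 60)⌉₊ := ⟨_, rfl⟩
  have hyl : Real.exp ((k : ℝ) ^ 60) ≤ y := by
    rw [hy]
    exact Nat.le_ceil _
  have hy0 : (0 : ℝ) < y := lt_of_lt_of_le (Real.exp_pos _) hyl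
  have hk60 : (1 : ℝ) ≤ (k : ℝ) ^ 60 := one_le_pow₀ (by linarith)
  obtain ⟨L, hL⟩ : ∃ L : ℝ, L = Real.log y := ⟨_, rfl⟩
  have hL1 : (k : ℝ) ^ 60 ≤ L := by
    rw [hL, Real.le_log_iff_exp_le hy0]
    exact hyl
  have hL2 : L ≤ 2 * (k : ℝ) ^ 60 := by
    rw [hL, ← Real.log_exp (2 * (k : ℝ) ^ 60)]
    apply Real.log_le_log hy0
    have h1 : (y : ℝ) < Real.exp ((k : ℝ) ^ 60) + 1 := by
      rw [hy]
      exact Nat.ceil_lt_add_one (Real.exp_pos _).le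
    have h2 : (1 : ℝ) ≤ Real.exp ((k : ℝ) ^ 60) := Real.one_le_exp (by linarith)
    have h3 : (2 : ℝ) ≤ Real.exp ((k : ℝ) ^ 60) := by
      have := Real.add_one_le_exp ((k : ℝ) ^ 60)
      linarith
    calc (y : ℝ) ≤ Real.exp ((k : ℝ) ^ 60) + 1 := h1.le
      _ ≤ 2 * Real.exp ((k : ℝ) ^ 60) := by linarith
      _ ≤ Real.exp ((k : ℝ) ^ 60) * Real.exp ((k : ℝ) ^ 60) :=
          mul_le_mul_of_nonneg_right h3 (Real.exp_pos _).le
      _ = Real.exp (2 * (k : ℝ) ^ 60) := by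
          rw [← Real.exp_add]
          congr 1
          ring
  have hLone : 1 ≤ L := hk60.trans hL1
  have hwy : w ≤ y := by
    have h1 : (w : ℝ) ≤ y := by
      rw [hw]
      push_cast
      calc (k : ℝ) ^ 2 ≤ (k : ℝ) ^ 60 := pow_le_pow_right₀ (by linarith) (by norm_num)
        _ ≤ Real.exp ((k : ℝ) ^ 60) := by
            have := Real.add_one_le_exp ((k : ℝ) ^ 60)
            linarith
        _ ≤ y := hyl
    exact_mod_cast h1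
  obtain ⟨M0, hM01, hM0⟩ := choose_M0 (CB := CB) hk2 hLone
  -- the sieve product
  have hVp := VW_pos w y
  have hV : (VW w y)⁻¹ ≤ CM * L := by
    have h1 := (hM1 w y (by omega) hwy).2
    have h2 : (1 : ℝ) ≤ Real.log w := by
      have h3 : Real.log 4 ≤ Real.log w := Real.log_le_log (by norm_num) (by exact_mod_cast hw4)
      have h4 : Real.log 4 = 2 * Real.log 2 := by
        rw [show (4 : ℝ) = 2 ^ 2 by norm_num, Real.log_pow]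
        push_cast
        ring
      have h5 := Real.log_two_gt_d9
      linarith
    rw [← hL] at h1
    have h3 : L / Real.log w ≤ L := div_le_self (by linarith) h2
    exact h1.trans (mul_le_mul_of_nonneg_left h3 (by linarith))
  have hCML : 1 ≤ CM * L := one_le_mul_of_one_le_of_one_le hCM hLone
  have hV4 : (VW w y)⁻¹ ^ 4 ≤ (CM * L) ^ 4 := pow_le_pow_left₀ (by positivity) hV 4
  obtain ⟨ε1, hε1⟩ : ∃ ε1 : ℝ, ε1 = 1 / (3 * (CM * L) ^ 4) := ⟨_, rfl⟩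
  have hCML0 : 0 < CM * L := by linarith
  have hε1p : 0 < ε1 := by
    rw [hε1]
    positivity
  obtain ⟨δ, hδ⟩ : ∃ δ : ℝ, δ = KO * L ^ KO * (2 : ℝ) ^ (-((k : ℝ) / KO)) + ε1 := ⟨_, rfl⟩
  have hδ0 : 0 ≤ δ + 2 * ε1 := by
    rw [hδ]
    have : 0 ≤ KO * L ^ KO * (2 : ℝ) ^ (-((k : ℝ) / KO)) := by positivity
    linarith
  have hδ2 : (δ + 2 * ε1) * (VW w y)⁻¹ ^ 4 ≤ 2 := by
    have h1 : (δ + 2 * ε1) * (VW w y)⁻¹ ^ 4 ≤ (δ + 2 * ε1) * (CM * L) ^ 4 :=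
      mul_le_mul_of_nonneg_left hV4 hδ0
    have h2 : (δ + 2 * ε1) * (CM * L) ^ 4 =
        (KO : ℝ) * CM ^ 4 * L ^ (KO + 4) * (2 : ℝ) ^ (-((k : ℝ) / KO)) + 1 := by
      have h3 : 3 * ε1 * (CM * L) ^ 4 = 1 := by
        rw [hε1]
        field_simp
      rw [hδ]
      calc _ = (KO : ℝ) * CM ^ 4 * L ^ (KO + 4) * (2 : ℝ) ^ (-((k : ℝ) / KO)) +
            3 * ε1 * (CM * L) ^ 4 := by ring
        _ = _ := by rw [h3]
    have h4 : (KO : ℝ) * CM ^ 4 * L ^ (KO + 4) * (2 : ℝ) ^ (-((k : ℝ) / KO)) ≤ 1 := by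
      refine le_trans ?_ q1
      have h5 : L ^ (KO + 4) ≤ (2 * (k : ℝ) ^ 60) ^ (KO + 4) := pow_le_pow_left₀ (by linarith) hL2 _
      exact mul_le_mul_of_nonneg_right (mul_le_mul_of_nonneg_left h5 (by positivity))
        (Real.rpow_nonneg (by norm_num) _)
    linarith
  -- `z0`
  obtain ⟨zO, hzO⟩ := hO k w y M0 hkO (by omega) (by omega) (by omega) hwy ε1 hε1p
  refine ⟨zO + y + a.natAbs * M0 ^ 3 + 2, fun z hz => ?_⟩
  have hzy : y ≤ z := by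
    have := Nat.zero_le (a.natAbs * M0 ^ 3)
    omega
  have hza : a.natAbs * M0 ^ 3 ≤ z := by omega
  have hz2 : 2 ≤ z := by
    have := Nat.zero_le (a.natAbs * M0 ^ 3)
    omega
  obtain ⟨BO, hBO⟩ := hzO z (by
    have := Nat.zero_le (a.natAbs * M0 ^ 3)
    omega)
  obtain ⟨q, hq⟩ : ∃ q : ℕ, q = PP 0 z * (a.natAbs * M0 ^ 3).factorial := ⟨_, rfl⟩
  have hq1 : 1 ≤ q := by
    rw [hq]
    exact Nat.mul_pos (PP_pos 0 z) (Nat.factorial_pos _)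
  -- the uniform `η`
  obtain ⟨η, hη, BS, hBS⟩ := uniform
    (((Icc 1 M0) ×ˢ ((Icc 1 M0) ×ˢ (Icc 1 M0))).filter (fun s : ℕ × ℕ × ℕ =>
      s.1 ∣ PP w y ∧ s.2.1 ∣ s.1 ∧ s.2.2 ∣ s.1 ∧ s.2.1 ≠ s.2.2))
    (fun s η b => ∀ B : ℕ, b ≤ B → ∀ (X Y H : ℕ) (F : ℤ → ℝ), 1 ≤ H → (H : ℝ) ≤ η * X →
      B ≤ X ^ 3 → X ≤ B ^ 2 → Y ≤ B ^ 2 → B ≤ s.1 / s.2.1 * Y → B ≤ s.1 / s.2.2 * Y → Adm F B →
      ZeroMean F q H →
      |∑ x ∈ Icc 1 X, ∑ t ∈ Icc 1 Y, rg w y x * rg w y t * lz z ((s.1 : ℤ) * x * t + c) *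
        F (((s.1 / s.2.1 : ℕ) : ℤ) * t - a * s.2.1 * x) *
        F (((s.1 / s.2.2 : ℕ) : ℤ) * t - a * s.2.2 * x)| ≤ ε1 * ((X : ℝ) * Y))
    (by
      intro s η η' b b' h1 h2 h3 B hB X Y H F g1 g2 g3 g4 g5 g6 g7 g8 g9
      exact h3 B (h2.trans hB) X Y H F g1 (g2.trans (mul_le_mul_of_nonneg_right h1 (by positivity)))
        g3 g4 g5 g6 g7 g8 g9)
    (by
      rintro ⟨M, m, m'⟩ hs
      simp only [mem_filter, mem_product, mem_Icc] at hs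
      obtain ⟨⟨⟨hMa, hMb⟩, -⟩, hMP, hmM, hmM', hmm⟩ := hs
      exact hSPc w y z M m m' q hq1 (by omega) hwy hzy hMP hmM hmM' hmm
        (by rw [hq]; exact q_dvd ha hMa hMb hmM hmM' hmm) ε1 hε1p)
  refine ⟨q, hq1, by rw [hq]; exact dvd_mul_right _ _, ?_, ?_⟩
  · intro p hp hpq
    rw [hq] at hpq
    rcases (Nat.Prime.dvd_mul hp).1 hpq with h | h
    · exact (dvd_PP hp h).2
    · exact ((Nat.Prime.dvd_factorial hp).1 h).trans hza
  have hM0r : (1 : ℝ) ≤ M0 := by exact_mod_cast hM01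
  refine ⟨η / (4 * M0), by positivity, ?_⟩
  obtain ⟨BC, hBC⟩ := hOC c k z hk2
  refine ⟨BU + BB + BO + BS + BC + 2 ^ 60 + M0 ^ 16 + M0 ^ k + y ^ k + z ^ k +
    ⌈Real.exp ((k : ℝ) ^ 2)⌉₊, fun B hB T H F hT hT2 hH hH2 hF hZ => ?_⟩
  have p1 := Nat.zero_le (M0 ^ 16)
  have p2 := Nat.zero_le (M0 ^ k)
  have p3 := Nat.zero_le (y ^ k)
  have p4 := Nat.zero_le (z ^ k)
  have p5 := Nat.zero_le (⌈Real.exp ((k : ℝ) ^ 2)⌉₊)
  generalize hgE : ⌈Real.exp ((k : ℝ) ^ 2)⌉₊ = e1 at hB p5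
  generalize hgM : M0 ^ 16 = e2 at hB p1
  generalize hgMk : M0 ^ k = e3 at hB p2
  generalize hgy : y ^ k = e4 at hB p3
  generalize hgz : z ^ k = e5 at hB p4
  have hB60 : 2 ^ 60 ≤ B := by omega
  have hM16 : M0 ^ 16 ≤ B := by rw [hgM]; omega
  have hMkB : M0 ^ k ≤ B := by rw [hgMk]; omega
  have hykB : y ^ k ≤ B := by rw [hgy]; omega
  have hzkB : z ^ k ≤ B := by rw [hgz]; omega
  have hEB : Real.exp ((k : ℝ) ^ 2) ≤ B := by
    refine (Nat.le_ceil _).trans ?_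
    rw [hgE]
    exact_mod_cast (by omega : e1 ≤ B)
  have hUB : U1At c CU kU B := hU B (by omega)
  have hBdB : BADAt c CB kB B := hBd B (by omega)
  have hOB := hBO B (by omega)
  have hSB : ∀ M m m' : ℕ, M ∣ PP w y → M ≤ M0 → m ∣ M → m' ∣ M → m ≠ m' → _ :=
    fun M m m' h1 h2 h3 h4 h5 => hBS (M, m, m') (by
      have hMpos : 1 ≤ M := Nat.pos_of_dvd_of_pos h1 (PP_pos w y)
      simp only [mem_filter, mem_product, mem_Icc]
      exact ⟨⟨⟨hMpos, h2⟩, ⟨Nat.pos_of_dvd_of_pos h3 hMpos, (Nat.le_of_dvd hMpos h3).trans h2⟩,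
        ⟨Nat.pos_of_dvd_of_pos h4 hMpos, (Nat.le_of_dvd hMpos h4).trans h2⟩⟩, h1, h3, h4, h5⟩) B (by omega)
  obtain ⟨z1, hz1a, hz1b⟩ := exists_root k B (by omega)
  obtain ⟨hz12, hORBB⟩ := hBC B (by omega) z1 hz1a hz1b
  have hzz1 : z ≤ z1 := by
    have : z ^ k < (z1 + 1) ^ k := lt_of_le_of_lt hzkB hz1b
    have := lt_of_pow_lt_pow_left₀ k (Nat.zero_le _) this
    omega
  have hpk : ∀ n k' : ℕ, 1 ≤ n → k' ≤ k → n ^ k ≤ B → n ^ k' ≤ B := fun n k' h1 h2 h3 =>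
    (Nat.pow_le_pow_right h1 h2).trans h3
  have hTB : T ≤ B := by
    have h1 : 1 ≤ a.natAbs := Nat.one_le_iff_ne_zero.2 (Int.natAbs_ne_zero.2 ha)
    calc T ≤ 2 * a.natAbs * T := Nat.le_mul_of_pos_left T (by omega)
      _ ≤ B := hT2
  obtain ⟨hph2, hph3⟩ := ph_zero (a := a) hT2 hF
  have hph1 : ∀ u v, |ph a T F u v| ≤ 1 := by
    intro u v
    unfold ph
    split_ifs
    · exact hF.1 _
    · rw [abs_zero]
      exact zero_le_one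
  have hy1 : 1 ≤ y := by omega
  have hBr : (2 : ℝ) ^ 60 ≤ B := by exact_mod_cast hB60
  have hBp : (0 : ℝ) < B := lt_of_lt_of_le (by norm_num) hBr
  have hρB : 1 + 1 / Real.log B ≤ ρ := by
    rw [hρ]
    have h1 : (k : ℝ) ^ 2 ≤ Real.log B := by
      rw [Real.le_log_iff_exp_le hBp]
      exact hEB
    have h2 := one_div_le_one_div_of_le (by positivity) h1
    linarith
  have main := hORBB T w y M0 ρ (ph a T F) hTB hρ1 hph1 hph2 hph3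
  -- the three parts
  have hTBn : 0 ≤ (T : ℝ) * B := by positivity
  have A1 := bad_sum (c := c) (M0 := M0) hBdB hB60 hT hTB hM01 hρB hρ2 hz2 hz12 (by omega : 2 ≤ w) hwy
    (hpk z kB (by omega) hkB hzkB) (hpk z1 kB (by omega) hkB hz1a) (hpk y kB hy1 hkB hykB)
    (hpk M0 kB hM01 hkB hMkB)
  have A1' : 1 / (w : ℝ) + (ρ - 1) + Real.log y ^ CB * Real.exp (-(Real.log M0 / (2 * Real.log y))) ≤
      3 * (1 / (k : ℝ) ^ 2) := by
    rw [← hL, hρ, hw]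
    push_cast
    linarith
  have A2 := aa_sum (c := c) (M0 := M0) hCU hUB hB60 hT hTB hM16 hρ1 hρ2 hz2 hz12 (by omega : 1 ≤ w) hwy
    (hpk z kU (by omega) hkU hzkB) (hpk z1 kU (by omega) hkU hz1a) (hpk y kU hy1 hkU hykB)
    (hpk M0 kU hM01 hkU hMkB)
  have A2' : VW w y ^ 2 * ∑ M ∈ (PP w y).divisors, ((Wn ρ M).card : ℝ) / (Nat.totient M : ℝ) ≤
      CE * (1 / (k : ℝ) ^ 3) := by
    refine (hEK w y ρ (by omega) hwy hρ1 hρ2).trans ?_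
    have h1 := ek_num hk2 hL1
    rw [← hL, hρ, hw]
    calc _ = CE * (((1 + 1 / (k : ℝ) ^ 2) - 1) ^ (-(1 / 2) : ℝ) *
          Real.log ((k ^ 2 : ℕ) : ℝ) ^ (3 / 5 : ℝ) * L ^ (-(1 / 12) : ℝ)) := by ring
      _ ≤ _ := mul_le_mul_of_nonneg_left h1 hCE.le
  have hOFFAt : OFFAt a c δ z z1 w y M0 B F := by
    intro X Y M m m' h1 h2 h3 h4 h5 h6 h7 h8 h9 h10
    have := hOB z1 X Y M m m' F hzz1 hz1a h1 h2 h3 h4 h5 h6 h7 h8 h9 h10 hF
    rw [← hL, ← hδ] at this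
    exact this
  have hSPAt : SPAt a c ε1 η z w y M0 B H F := by
    intro X Y M m m' h1 h2 h3 h4 h5 h6 h7 h8 h9 h10 h11
    exact hSB M m m' h1 h2 h3 h4 h5 X Y H F hH h6 h7 h8 h9 h10 h11 hF hZ
  have hHη : (H : ℝ) * (4 * M0) ≤ η * T := by
    calc (H : ℝ) * (4 * M0) ≤ (η / (4 * M0) * T) * (4 * M0) :=
          mul_le_mul_of_nonneg_right hH2 (by positivity)
      _ = η * T := by field_simp
  have A3 := dd_sum (c := c) (M0 := M0) (F := F) hCU hUB hB60 hT hTB hM16 hρ1 hρ2 hz2 hz12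
    (by omega : 1 ≤ w) hwy
    (hpk z kU (by omega) hkU hzkB) (hpk z1 kU (by omega) hkU hz1a) (hpk y kU hy1 hkU hykB)
    (hpk M0 kU hM01 hkU hMkB) hF.1 hOFFAt hSPAt hη hHη hδ0 hδ2
  have hSF : SF a c z B T F = ∑ u ∈ Icc 1 T, ∑ v ∈ Icc 1 (4 * B), ph a T F u v * EE z ((u : ℤ) * v + c) := by
    unfold SF
    refine sum_congr rfl fun u hu => sum_congr rfl fun v _ => ?_
    unfold ph
    rw [if_pos (mem_Icc.1 hu).2]
  rw [hSF]
  refine main.trans ?_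
  set SA := ∑ M ∈ (PP w y).divisors.filter (fun M => M ≤ M0), ∑ j ∈ Wn ρ M,
    AA (NN c z z1) w y ρ T (4 * B) M j with hSA
  set SD := ∑ M ∈ (PP w y).divisors.filter (fun M => M ≤ M0), ∑ j ∈ Wn ρ M,
    DD (ph a T F) (NN c z z1) w y ρ T (4 * B) M j with hSD
  set SB := ∑ u ∈ Icc 1 T, ∑ v ∈ Icc 1 (4 * B),
    (if Bad T w y M0 ρ u v then NN c z z1 (u * v) else 0) with hSBd
  have B1 : SB ≤ 24 * CB / (k : ℝ) ^ 2 * ((B : ℝ) * T) := by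
    refine A1.trans ?_
    calc _ ≤ 8 * CB * ((T : ℝ) * B) * (3 * (1 / (k : ℝ) ^ 2)) :=
          mul_le_mul_of_nonneg_left A1' (by positivity)
      _ = _ := by ring
  have B2 : SA ≤ 8 * CU * CE / (k : ℝ) ^ 3 * ((B : ℝ) * T) := by
    refine A2.trans ?_
    calc _ ≤ 8 * CU * ((T : ℝ) * B) * (CE * (1 / (k : ℝ) ^ 3)) :=
          mul_le_mul_of_nonneg_left A2' (by positivity)
      _ = _ := by ring
  have B3 : SD ≤ (8 * CU + 8) * ((B : ℝ) * T) := A3.trans (le_of_eq (by ring))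
  have B4 : √SA * √SD ≤ √(G / (k : ℝ) ^ 3) * ((B : ℝ) * T) := by
    calc √SA * √SD ≤ √(8 * CU * CE / (k : ℝ) ^ 3 * ((B : ℝ) * T)) * √((8 * CU + 8) * ((B : ℝ) * T)) :=
          mul_le_mul (Real.sqrt_le_sqrt B2) (Real.sqrt_le_sqrt B3) (Real.sqrt_nonneg _)
            (Real.sqrt_nonneg _)
      _ = √(G / (k : ℝ) ^ 3 * ((B : ℝ) * T) ^ 2) := by
          rw [← Real.sqrt_mul (by positivity)]
          congr 1
          rw [hG]
          ring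
      _ = √(G / (k : ℝ) ^ 3) * ((B : ℝ) * T) := by
          rw [Real.sqrt_mul (by positivity), Real.sqrt_sq (by positivity)]
  have B5 : (k : ℝ) * √(G / (k : ℝ) ^ 3) = √(G / k) := by
    have h1 : G / (k : ℝ) = (k : ℝ) ^ 2 * (G / (k : ℝ) ^ 3) := by
      field_simp
    rw [h1, Real.sqrt_mul (by positivity), Real.sqrt_sq hk0.le]
  have hκ0 : 0 < κ := by linarith
  calc κ * k * (SB + √SA * √SD) ≤
        κ * k * (24 * CB / (k : ℝ) ^ 2 * ((B : ℝ) * T) + √(G / (k : ℝ) ^ 3) * ((B : ℝ) * T)) :=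
        mul_le_mul_of_nonneg_left (add_le_add B1 B4) (by positivity)
    _ = (24 * κ * CB / k + κ * ((k : ℝ) * √(G / (k : ℝ) ^ 3))) * ((B : ℝ) * T) := by
        field_simp
    _ ≤ ε * ((B : ℝ) * T) := by
        rw [B5]
        exact mul_le_mul_of_nonneg_right (by linarith) (by positivity)

end

end Pool.Agent.N756.QL
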