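import Pool.Agent.N728.QL.Base

set_option autoImplicit false

/-! Project QL (helper728), stage A: sums over divisors and the expansion of the square (helper756).
`sqf_prod`, `div_prod`, `sum_div`, `totient_prod` follow `Pool.Agent.N40.QL.EK`. -/

namespace Pool.Agent.N756.QL

open Finset Pool.Agent.N728.QL

lemma sqf_prod (A : Finset ℕ) (hA : ∀ p ∈ A, p.Prime) : Squarefree (∏ p ∈ A, p) := by
  classical
  induction A using Finset.induction_on with
  | empty => simp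
  | insert q A hq ih =>
    rw [Finset.prod_insert hq, Nat.squarefree_mul_iff]
    have hA' : ∀ p ∈ A, p.Prime := fun p hp => hA p (Finset.mem_insert_of_mem hp)
    have hqp := hA q (Finset.mem_insert_self q A)
    refine ⟨?_, hqp.squarefree, ih hA'⟩
    refine Nat.Coprime.prod_right fun p hp => ?_
    exact (Nat.coprime_primes hqp (hA' p hp)).2 (fun h => hq (h ▸ hp))

lemma div_prod (A : Finset ℕ) (hA : ∀ p ∈ A, p.Prime) :
    (∏ p ∈ A, p).divisors = A.powerset.image (fun B => ∏ p ∈ B, p) := by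
  have h0 : (∏ p ∈ A, p) ≠ 0 := Finset.prod_ne_zero_iff.2 fun p hp => (hA p hp).ne_zero
  ext d
  simp only [Nat.mem_divisors, Finset.mem_image, Finset.mem_powerset]
  constructor
  · rintro ⟨hd, -⟩
    refine ⟨d.primeFactors, ?_, ?_⟩
    · have := Nat.primeFactors_mono hd h0
      rwa [Nat.primeFactors_prod hA] at this
    · exact Nat.prod_primeFactors_of_squarefree ((sqf_prod A hA).squarefree_of_dvd hd)
  · rintro ⟨B, hB, rfl⟩
    exact ⟨Finset.prod_dvd_prod_of_subset _ _ _ hB, h0⟩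

lemma sum_div (A : Finset ℕ) (hA : ∀ p ∈ A, p.Prime) (f : ℕ → ℝ) :
    ∑ M ∈ (∏ p ∈ A, p).divisors, f M = ∑ B ∈ A.powerset, f (∏ p ∈ B, p) := by
  rw [div_prod A hA, Finset.sum_image]
  intro B hB B' hB' h
  have hB1 := Finset.mem_powerset.1 hB
  have hB2 := Finset.mem_powerset.1 hB'
  have h1 := Nat.primeFactors_prod (s := B) (fun p hp => hA p (hB1 hp))
  have h2 := Nat.primeFactors_prod (s := B') (fun p hp => hA p (hB2 hp))
  rw [← h1, ← h2]
  simp only at h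
  rw [h]

lemma card_div_le (A : Finset ℕ) (hA : ∀ p ∈ A, p.Prime) :
    (∏ p ∈ A, p).divisors.card ≤ 2 ^ A.card := by
  rw [div_prod A hA]
  exact Finset.card_image_le.trans (by rw [Finset.card_powerset])

lemma totient_prod (A : Finset ℕ) (hA : ∀ p ∈ A, p.Prime) :
    (Nat.totient (∏ p ∈ A, p) : ℝ) = ∏ p ∈ A, ((p : ℝ) - 1) := by
  classical
  induction A using Finset.induction_on with
  | empty => simp
  | insert q A hq ih =>
    have hA' : ∀ p ∈ A, p.Prime := fun p hp => hA p (Finset.mem_insert_of_mem hp)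
    have hqp := hA q (Finset.mem_insert_self q A)
    rw [Finset.prod_insert hq, Finset.prod_insert hq, Nat.totient_mul, Nat.cast_mul, ih hA',
      Nat.totient_prime hqp, Nat.cast_sub hqp.one_lt.le]
    · simp
    · refine Nat.Coprime.prod_right fun p hp => ?_
      exact (Nat.coprime_primes hqp (hA' p hp)).2 (fun h => hq (h ▸ hp))

lemma two_le_of {w y p : ℕ} (hp : p ∈ (Ioc w y).filter Nat.Prime) : (2 : ℝ) ≤ p := by
  exact_mod_cast (mem_filter.1 hp).2.two_le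

/-- `V² ∑ τ(M) / φ(M) ≤ 1` -/
lemma sum2 (w y : ℕ) :
    VW w y ^ 2 * ∑ M ∈ (PP w y).divisors, (M.divisors.card : ℝ) / (Nat.totient M : ℝ) ≤ 1 := by
  set S := (Ioc w y).filter Nat.Prime with hS
  have hSp : ∀ p ∈ S, p.Prime := fun p hp => (mem_filter.1 hp).2
  have e1 : ∑ M ∈ (PP w y).divisors, (M.divisors.card : ℝ) / (Nat.totient M : ℝ) ≤
      ∏ p ∈ S, (1 + 2 / ((p : ℝ) - 1)) := by
    show ∑ M ∈ (∏ p ∈ S, p).divisors, _ ≤ _
    rw [sum_div S hSp, Finset.prod_one_add]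
    refine sum_le_sum fun B hB => ?_
    have hB' : ∀ p ∈ B, p.Prime := fun p hp => hSp p (mem_powerset.1 hB hp)
    rw [totient_prod B hB', prod_div_distrib, prod_const]
    have h1 : ((∏ p ∈ B, p).divisors.card : ℝ) ≤ 2 ^ B.card := by
      exact_mod_cast card_div_le B hB'
    refine div_le_div_of_nonneg_right h1 (prod_nonneg fun p hp => ?_)
    have : (2 : ℝ) ≤ p := by exact_mod_cast (hB' p hp).two_le
    linarith
  have e2 : VW w y ^ 2 * ∏ p ∈ S, (1 + 2 / ((p : ℝ) - 1)) ≤ 1 := by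
    unfold VW
    rw [← hS, ← prod_pow, ← prod_mul_distrib]
    refine prod_le_one (fun p hp => ?_) (fun p hp => ?_)
    · have h2 := two_le_of hp
      have : 0 < (p : ℝ) - 1 := by linarith
      positivity
    · have h2 := two_le_of hp
      have h3 : 0 < (p : ℝ) - 1 := by linarith
      have h4 : (p : ℝ) ≠ 0 := by linarith
      have e : (1 - 1 / (p : ℝ)) ^ 2 * (1 + 2 / ((p : ℝ) - 1)) = 1 - 1 / (p : ℝ) ^ 2 := by
        field_simp
        ring
      rw [e]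
      have : 0 ≤ 1 / (p : ℝ) ^ 2 := by positivity
      linarith
  exact (mul_le_mul_of_nonneg_left e1 (by positivity)).trans e2

/-- `∑ τ(M)² / M ≤ V⁻⁴` -/
lemma sum4 (w y : ℕ) :
    ∑ M ∈ (PP w y).divisors, (M.divisors.card : ℝ) ^ 2 / (M : ℝ) ≤ (VW w y)⁻¹ ^ 4 := by
  set S := (Ioc w y).filter Nat.Prime with hS
  have hSp : ∀ p ∈ S, p.Prime := fun p hp => (mem_filter.1 hp).2
  have e1 : ∑ M ∈ (PP w y).divisors, (M.divisors.card : ℝ) ^ 2 / (M : ℝ) ≤
      ∏ p ∈ S, (1 + 4 / (p : ℝ)) := by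
    show ∑ M ∈ (∏ p ∈ S, p).divisors, _ ≤ _
    rw [sum_div S hSp, Finset.prod_one_add]
    refine sum_le_sum fun B hB => ?_
    have hB' : ∀ p ∈ B, p.Prime := fun p hp => hSp p (mem_powerset.1 hB hp)
    rw [prod_div_distrib, prod_const]
    have h1 : ((∏ p ∈ B, p).divisors.card : ℝ) ≤ 2 ^ B.card := by
      exact_mod_cast card_div_le B hB'
    have h2 : ((∏ p ∈ B, p).divisors.card : ℝ) ^ 2 ≤ 4 ^ B.card := by
      calc ((∏ p ∈ B, p).divisors.card : ℝ) ^ 2 ≤ (2 ^ B.card) ^ 2 :=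
            pow_le_pow_left₀ (by positivity) h1 2
        _ = 4 ^ B.card := by
            rw [← pow_mul, mul_comm, pow_mul]
            norm_num
    push_cast
    exact div_le_div_of_nonneg_right h2 (prod_nonneg fun p _ => by positivity)
  refine e1.trans ?_
  unfold VW
  rw [← hS, ← prod_inv_distrib, ← prod_pow]
  refine prod_le_prod (fun p hp => ?_) (fun p hp => ?_)
  · positivity
  · have h2 := two_le_of hp
    have h4 : 0 < 1 - 1 / (p : ℝ) := by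
      have : 1 / (p : ℝ) ≤ 1 / 2 := one_div_le_one_div_of_le (by norm_num) h2
      linarith
    have h5 : 1 + 1 / (p : ℝ) ≤ (1 - 1 / (p : ℝ))⁻¹ := by
      rw [le_inv_comm₀ (by positivity) h4, inv_eq_one_div, le_div_iff₀ (by positivity)]
      have : 0 ≤ (1 / (p : ℝ)) ^ 2 := by positivity
      nlinarith
    have h6 : 0 ≤ 1 / (p : ℝ) := by positivity
    calc 1 + 4 / (p : ℝ) = 1 + 4 * (1 / (p : ℝ)) := by ring
      _ ≤ (1 + 1 / (p : ℝ)) ^ 4 := by nlinarith [sq_nonneg (1 / (p : ℝ)), pow_nonneg h6 3, pow_nonneg h6 4]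
      _ ≤ _ := pow_le_pow_left₀ (by positivity) h5 4

/-! ### Windows -/

lemma mem_Dv {ρ : ℝ} {M j m : ℕ} : m ∈ Dv ρ M j ↔ m ∈ M.divisors ∧ jw ρ m = j := by
  unfold Dv
  rw [mem_filter]

lemma sum_card_Dv (ρ : ℝ) (M : ℕ) : ∑ j ∈ Wn ρ M, (Dv ρ M j).card = M.divisors.card := by
  unfold Wn Dv
  exact (card_eq_sum_card_image (jw ρ) M.divisors).symm

lemma sum_card_Dv_r (ρ : ℝ) (M : ℕ) :
    ∑ j ∈ Wn ρ M, ((Dv ρ M j).card : ℝ) = (M.divisors.card : ℝ) := by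
  exact_mod_cast sum_card_Dv ρ M

lemma sum_card_Dv_sq (ρ : ℝ) (M : ℕ) :
    ∑ j ∈ Wn ρ M, ((Dv ρ M j).card : ℝ) ^ 2 ≤ (M.divisors.card : ℝ) ^ 2 := by
  have h1 : ∀ j, ((Dv ρ M j).card : ℝ) ≤ M.divisors.card := fun j => by
    exact_mod_cast card_filter_le _ _
  calc ∑ j ∈ Wn ρ M, ((Dv ρ M j).card : ℝ) ^ 2 ≤
        ∑ j ∈ Wn ρ M, (M.divisors.card : ℝ) * ((Dv ρ M j).card : ℝ) := sum_le_sum fun j _ => by
          rw [pow_two]
          exact mul_le_mul_of_nonneg_right (h1 j) (by positivity)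
    _ = _ := by rw [← mul_sum, sum_card_Dv_r, pow_two]

lemma Dv_lt {ρ : ℝ} (hρ : 1 < ρ) {M j m : ℕ} (h : m ∈ Dv ρ M j) : (m : ℝ) < ρ ^ (j + 1) := by
  obtain ⟨h1, h2⟩ := mem_Dv.1 h
  have hm : 0 < m := Nat.pos_of_mem_divisors h1
  have hm' : (0 : ℝ) < m := by exact_mod_cast hm
  have hl : 0 < Real.log ρ := Real.log_pos hρ
  have h3 : Real.log m / Real.log ρ < (j : ℝ) + 1 := by
    rw [← h2]
    exact Nat.lt_floor_add_one _
  rw [div_lt_iff₀ hl] at h3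
  have h4 : Real.log m < Real.log (ρ ^ (j + 1)) := by
    rw [Real.log_pow]
    push_cast
    exact h3
  exact (Real.log_lt_log_iff hm' (by positivity)).1 h4

/-- `m x ≤ T` on the range -/
lemma mx_le {ρ : ℝ} (hρ : 1 < ρ) {M j m T x : ℕ} (h : m ∈ Dv ρ M j)
    (hx : x ∈ Icc 1 ⌊(T : ℝ) / ρ ^ (j + 1)⌋₊) : m * x ≤ T := by
  have h1 := Dv_lt hρ h
  have hp : 0 < ρ ^ (j + 1) := by positivity
  have h2 : (x : ℝ) ≤ (T : ℝ) / ρ ^ (j + 1) :=
    (Nat.le_floor_iff (by positivity)).1 (mem_Icc.1 hx).2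
  rw [le_div_iff₀ hp] at h2
  have h3 : (m : ℝ) * x ≤ T := by
    calc (m : ℝ) * x ≤ ρ ^ (j + 1) * x := mul_le_mul_of_nonneg_right h1.le (by positivity)
      _ = x * ρ ^ (j + 1) := mul_comm _ _
      _ ≤ T := h2
  exact_mod_cast h3

/-- `X Y ≤ T Y / M` -/
lemma XY_le {ρ : ℝ} (hρ : 1 < ρ) {M j T Y : ℕ} (hM : 1 ≤ M) :
    ((⌊(T : ℝ) / ρ ^ (j + 1)⌋₊ : ℝ)) * (⌊(Y : ℝ) * ρ ^ (j + 1) / M⌋₊ : ℝ) ≤ (T : ℝ) * Y / M := by
  have hp : 0 < ρ ^ (j + 1) := by positivity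
  have hM' : (0 : ℝ) < M := by exact_mod_cast hM
  have h1 : (⌊(T : ℝ) / ρ ^ (j + 1)⌋₊ : ℝ) ≤ (T : ℝ) / ρ ^ (j + 1) := Nat.floor_le (by positivity)
  have h2 : (⌊(Y : ℝ) * ρ ^ (j + 1) / M⌋₊ : ℝ) ≤ (Y : ℝ) * ρ ^ (j + 1) / M :=
    Nat.floor_le (by positivity)
  calc _ ≤ ((T : ℝ) / ρ ^ (j + 1)) * ((Y : ℝ) * ρ ^ (j + 1) / M) :=
        mul_le_mul h1 h2 (by positivity) (by positivity)
    _ = _ := by field_simp

/-! ### The square -/

/-- the expansion of the square -/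
lemma sq_expand {D : Finset ℕ} (f : ℕ → ℝ) :
    (∑ m ∈ D, f m) ^ 2 = ∑ m ∈ D, f m ^ 2 + ∑ m ∈ D, ∑ m' ∈ D.erase m, f m * f m' := by
  rw [pow_two, sum_mul_sum, ← sum_add_distrib]
  refine sum_congr rfl fun m hm => ?_
  rw [← add_sum_erase D _ hm, pow_two]

/-- diagonal and off-diagonal terms -/
lemma dd_expand {φ : ℕ → ℕ → ℝ} (hφ : ∀ u v, |φ u v| ≤ 1) {N : ℕ → ℝ} (hN : ∀ n, 0 ≤ N n)
    (w y : ℕ) (ρ : ℝ) (T Y M j : ℕ) :
    DD φ N w y ρ T Y M j ≤ ((Dv ρ M j).card : ℝ) * AA N w y ρ T Y M j +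
      ∑ m ∈ Dv ρ M j, ∑ m' ∈ (Dv ρ M j).erase m,
        |∑ x ∈ Icc 1 ⌊(T : ℝ) / ρ ^ (j + 1)⌋₊, ∑ t ∈ Icc 1 ⌊(Y : ℝ) * ρ ^ (j + 1) / M⌋₊,
          rg w y x * rg w y t * N (M * x * t) * (φ (m * x) (M / m * t) * φ (m' * x) (M / m' * t))| := by
  set XS := Icc 1 ⌊(T : ℝ) / ρ ^ (j + 1)⌋₊ with hXS
  set YS := Icc 1 ⌊(Y : ℝ) * ρ ^ (j + 1) / M⌋₊ with hYS
  set D := Dv ρ M j with hD
  have hw : ∀ x t : ℕ, 0 ≤ rg w y x * rg w y t * N (M * x * t) := fun x t =>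
    mul_nonneg (mul_nonneg (rg_nonneg _ _ _) (rg_nonneg _ _ _)) (hN _)
  have e1 : DD φ N w y ρ T Y M j =
      (∑ m ∈ D, ∑ x ∈ XS, ∑ t ∈ YS, rg w y x * rg w y t * N (M * x * t) *
        φ (m * x) (M / m * t) ^ 2) +
      ∑ m ∈ D, ∑ m' ∈ D.erase m, ∑ x ∈ XS, ∑ t ∈ YS,
        rg w y x * rg w y t * N (M * x * t) * (φ (m * x) (M / m * t) * φ (m' * x) (M / m' * t)) := by
    unfold DD
    simp only [sq_expand, mul_add, sum_add_distrib]
    congr 1
    · have : ∀ x ∈ XS, ∑ t ∈ YS, rg w y x * rg w y t * N (M * x * t) *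
          ∑ m ∈ D, φ (m * x) (M / m * t) ^ 2 = ∑ m ∈ D, ∑ t ∈ YS, rg w y x * rg w y t *
          N (M * x * t) * φ (m * x) (M / m * t) ^ 2 := by
        intro x _
        rw [sum_comm]
        exact sum_congr rfl fun t _ => mul_sum _ _ _
      rw [sum_congr rfl this, sum_comm]
    · have : ∀ x ∈ XS, ∑ t ∈ YS, rg w y x * rg w y t * N (M * x * t) *
          ∑ m ∈ D, ∑ m' ∈ D.erase m, φ (m * x) (M / m * t) * φ (m' * x) (M / m' * t) =
          ∑ m ∈ D, ∑ m' ∈ D.erase m, ∑ t ∈ YS, rg w y x * rg w y t *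
          N (M * x * t) * (φ (m * x) (M / m * t) * φ (m' * x) (M / m' * t)) := by
        intro x _
        have h2 : ∀ m ∈ D, ∑ m' ∈ D.erase m, ∑ t ∈ YS, rg w y x * rg w y t *
            N (M * x * t) * (φ (m * x) (M / m * t) * φ (m' * x) (M / m' * t)) =
            ∑ t ∈ YS, ∑ m' ∈ D.erase m, rg w y x * rg w y t *
            N (M * x * t) * (φ (m * x) (M / m * t) * φ (m' * x) (M / m' * t)) :=
          fun m _ => sum_comm
        rw [sum_congr rfl h2, sum_comm]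
        refine sum_congr rfl fun t _ => ?_
        rw [mul_sum]
        exact sum_congr rfl fun m _ => mul_sum _ _ _
      rw [sum_congr rfl this, sum_comm]
      exact sum_congr rfl fun m _ => sum_comm
  rw [e1]
  refine add_le_add ?_ (sum_le_sum fun m _ => sum_le_sum fun m' _ => le_abs_self _)
  calc (∑ m ∈ D, ∑ x ∈ XS, ∑ t ∈ YS, rg w y x * rg w y t * N (M * x * t) *
        φ (m * x) (M / m * t) ^ 2) ≤ ∑ m ∈ D, AA N w y ρ T Y M j := by
        refine sum_le_sum fun m _ => ?_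
        unfold AA
        refine sum_le_sum fun x _ => sum_le_sum fun t _ => ?_
        have h3 : φ (m * x) (M / m * t) ^ 2 ≤ 1 := by
          rw [← sq_abs]
          exact pow_le_one₀ (abs_nonneg _) (hφ _ _)
        calc rg w y x * rg w y t * N (M * x * t) * φ (m * x) (M / m * t) ^ 2 ≤
              rg w y x * rg w y t * N (M * x * t) * 1 := mul_le_mul_of_nonneg_left h3 (hw x t)
          _ = _ := mul_one _
    _ = _ := by rw [sum_const, nsmul_eq_mul]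

/-- finitely many conditions with two parameters -/
lemma uniform {ι : Type} (S : Finset ι) (Q : ι → ℝ → ℕ → Prop)
    (hmono : ∀ s η η' b b', η' ≤ η → b ≤ b' → Q s η b → Q s η' b')
    (h : ∀ s ∈ S, ∃ η : ℝ, 0 < η ∧ ∃ b : ℕ, Q s η b) :
    ∃ η : ℝ, 0 < η ∧ ∃ b : ℕ, ∀ s ∈ S, Q s η b := by
  classical
  induction S using Finset.induction_on with
  | empty => exact ⟨1, one_pos, 0, fun s hs => absurd hs (notMem_empty s)⟩
  | insert s S hs ih =>
    obtain ⟨η1, h1, b1, q1⟩ := ih fun t ht => h t (mem_insert_of_mem ht)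
    obtain ⟨η2, h2, b2, q2⟩ := h s (mem_insert_self s S)
    refine ⟨min η1 η2, lt_min h1 h2, max b1 b2, fun t ht => ?_⟩
    rcases mem_insert.1 ht with rfl | ht
    · exact hmono _ _ _ _ _ (min_le_right _ _) (le_max_right _ _) q2
    · exact hmono _ _ _ _ _ (min_le_left _ _) (le_max_left _ _) (q1 t ht)

end Pool.Agent.N756.QL
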