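import Pool.Agent.N728.QL.CoreA
import Pool.Agent.N756.QL.StaS

set_option autoImplicit false

/-! Project QL (helper728), stage A: the three parts of the bound (helper756). -/

namespace Pool.Agent.N756.QL

open Finset Pool.Agent.N728.QL

noncomputable section

/-- the bound of U1 at `B` -/
def U1At (c : ℤ) (C : ℝ) (k0 B : ℕ) : Prop :=
  ∀ z w y M X I1 I2 : ℕ, 2 ≤ z → 1 ≤ w → w ≤ y → z ^ k0 ≤ B → y ^ k0 ≤ B → M ^ k0 ≤ B → M ∣ PP w y →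
  B ≤ X ^ 4 → X ≤ B ^ 2 → I1 ≤ I2 → B ≤ (I2 - I1) ^ 4 → I2 ≤ B ^ 2 →
  ∑ x ∈ Icc 1 X, ∑ t ∈ Ioc I1 I2, rg w y x * rg w y t * lz z ((M : ℤ) * x * t + c) ≤
    C * ((M : ℝ) / Nat.totient M) * VW w y ^ 2 * ((X : ℝ) * ((I2 : ℝ) - I1))

open Classical in
/-- the bound of BAD at `B` -/
def BADAt (c : ℤ) (C : ℝ) (k0 B : ℕ) : Prop :=
  ∀ (z w y M0 T Y : ℕ) (ρ : ℝ), 2 ≤ z → z ^ k0 ≤ B → 2 ≤ w → w ≤ y → y ^ k0 ≤ B → 1 ≤ M0 → M0 ^ k0 ≤ B →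
  B ≤ T ^ 2 → T ≤ B ^ 2 → B ≤ Y ^ 2 → Y ≤ B ^ 2 → 1 + 1 / Real.log B ≤ ρ → ρ ≤ 2 →
  ∑ u ∈ Icc 1 T, ∑ v ∈ Icc 1 Y, (if Bad T w y M0 ρ u v then lz z ((u : ℤ) * v + c) else 0) ≤
    C * ((T : ℝ) * Y) * (1 / w + (ρ - 1) + Real.log y ^ C * Real.exp (-(Real.log M0 / (2 * Real.log y))))

/-- the bound of OFF -/
def OFFAt (a c : ℤ) (δ : ℝ) (z z1 w y M0 B : ℕ) (F : ℤ → ℝ) : Prop :=
  ∀ X Y M m m' : ℕ, M ∣ PP w y → M ≤ M0 → m ∣ M → m' ∣ M → m ≠ m' →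
  B ≤ X ^ 3 → X ≤ B ^ 2 → Y ≤ B ^ 2 → B ≤ M / m * Y → B ≤ M / m' * Y →
  |∑ x ∈ Icc 1 X, ∑ t ∈ Icc 1 Y, rg w y x * rg w y t * dz z z1 ((M : ℤ) * x * t + c) *
      F (((M / m : ℕ) : ℤ) * t - a * m * x) * F (((M / m' : ℕ) : ℤ) * t - a * m' * x)| ≤
    δ * ((X : ℝ) * Y)

/-- the bound of SP -/
def SPAt (a c : ℤ) (ε η : ℝ) (z w y M0 B H : ℕ) (F : ℤ → ℝ) : Prop :=
  ∀ X Y M m m' : ℕ, M ∣ PP w y → M ≤ M0 → m ∣ M → m' ∣ M → m ≠ m' → (H : ℝ) ≤ η * X →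
  B ≤ X ^ 3 → X ≤ B ^ 2 → Y ≤ B ^ 2 → B ≤ M / m * Y → B ≤ M / m' * Y →
  |∑ x ∈ Icc 1 X, ∑ t ∈ Icc 1 Y, rg w y x * rg w y t * lz z ((M : ℤ) * x * t + c) *
      F (((M / m : ℕ) : ℤ) * t - a * m * x) * F (((M / m' : ℕ) : ℤ) * t - a * m' * x)| ≤
    ε * ((X : ℝ) * Y)

lemma pow4_of {B X : ℕ} (hB : 0 < B) (h : B ≤ X ^ 3) : B ≤ X ^ 4 := by
  have hX : 1 ≤ X := by
    by_contra h0
    have : X = 0 := by omega
    rw [this] at h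
    simp at h
    omega
  exact h.trans (Nat.pow_le_pow_right hX (by norm_num))

lemma aa_le {c : ℤ} {C : ℝ} {k0 B : ℕ} (hC : 0 < C) (hU : U1At c C k0 B) {z z1 w y M0 T : ℕ} {ρ : ℝ}
    (hB : 2 ^ 60 ≤ B) (hT : B ≤ T ^ 2) (hT2 : T ≤ B) (hM0 : M0 ^ 16 ≤ B) (hρ1 : 1 < ρ) (hρ2 : ρ ≤ 2)
    (hz : 2 ≤ z) (hz1 : 2 ≤ z1) (hw : 1 ≤ w) (hwy : w ≤ y) (hzk : z ^ k0 ≤ B) (hz1k : z1 ^ k0 ≤ B)
    (hyk : y ^ k0 ≤ B) (hMk : M0 ^ k0 ≤ B) {M j : ℕ} (hM : M ∣ PP w y) (hMM : M ≤ M0) (hj : j ∈ Wn ρ M) :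
    AA (NN c z z1) w y ρ T (4 * B) M j ≤
      8 * C * ((T : ℝ) * B) * (VW w y ^ 2 * (1 / (Nat.totient M : ℝ))) := by
  have hM1 : 1 ≤ M := Nat.pos_of_dvd_of_pos hM (PP_pos w y)
  obtain ⟨r1, r2, r3, r4, r5, r6, r7⟩ := rng hB hT hT2 hM0 hM1 hMM hρ1 hρ2 hj
  set X := ⌊(T : ℝ) / ρ ^ (j + 1)⌋₊ with hX
  set Y := ⌊((4 * B : ℕ) : ℝ) * ρ ^ (j + 1) / M⌋₊ with hY
  have hBpos : 0 < B := lt_of_lt_of_le (by norm_num) hB
  have hX4 : B ≤ X ^ 4 := pow4_of hBpos r1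
  have hY4 : B ≤ (Y - 0) ^ 4 := by
    rw [Nat.sub_zero]
    exact pow4_of hBpos r3
  have key : ∀ s : ℕ, 2 ≤ s → s ^ k0 ≤ B →
      ∑ x ∈ Icc 1 X, ∑ t ∈ Icc 1 Y, rg w y x * rg w y t * lz s ((M : ℤ) * x * t + c) ≤
        C * ((M : ℝ) / Nat.totient M) * VW w y ^ 2 * ((X : ℝ) * Y) := by
    intro s hs hsk
    have h := hU s w y M X 0 Y hs hw hwy hsk hyk ((Nat.pow_le_pow_left hMM k0).trans hMk) hM hX4 r2
      (Nat.zero_le _) hY4 r4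
    have e : Ioc 0 Y = Icc 1 Y := by
      ext t
      simp only [mem_Ioc, mem_Icc]
      omega
    rw [e, Nat.cast_zero, sub_zero] at h
    exact h
  have e : AA (NN c z z1) w y ρ T (4 * B) M j =
      (∑ x ∈ Icc 1 X, ∑ t ∈ Icc 1 Y, rg w y x * rg w y t * lz z1 ((M : ℤ) * x * t + c)) +
      ∑ x ∈ Icc 1 X, ∑ t ∈ Icc 1 Y, rg w y x * rg w y t * lz z ((M : ℤ) * x * t + c) := by
    rw [← sum_add_distrib]
    unfold AA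
    refine sum_congr rfl fun x _ => ?_
    rw [← sum_add_distrib]
    refine sum_congr rfl fun t _ => ?_
    unfold NN
    push_cast
    ring
  rw [e]
  have h1 := key z1 hz1 hz1k
  have h2 := key z hz hzk
  have hMr : (0 : ℝ) < M := by exact_mod_cast hM1
  have ht : (0 : ℝ) < Nat.totient M := by exact_mod_cast Nat.totient_pos.2 hM1
  have h3 : C * ((M : ℝ) / Nat.totient M) * VW w y ^ 2 * ((X : ℝ) * Y) ≤
      C * ((M : ℝ) / Nat.totient M) * VW w y ^ 2 * (T * (4 * B) / M) :=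
    mul_le_mul_of_nonneg_left r5 (by positivity)
  have h4 : 2 * (C * ((M : ℝ) / Nat.totient M) * VW w y ^ 2 * (T * (4 * B) / M)) =
      8 * C * ((T : ℝ) * B) * (VW w y ^ 2 * (1 / (Nat.totient M : ℝ))) := by
    field_simp
    ring
  linarith

/-- the sum of the `AA` -/
lemma aa_sum {c : ℤ} {C : ℝ} {k0 B : ℕ} (hC : 0 < C) (hU : U1At c C k0 B) {z z1 w y M0 T : ℕ} {ρ : ℝ}
    (hB : 2 ^ 60 ≤ B) (hT : B ≤ T ^ 2) (hT2 : T ≤ B) (hM0 : M0 ^ 16 ≤ B) (hρ1 : 1 < ρ) (hρ2 : ρ ≤ 2)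
    (hz : 2 ≤ z) (hz1 : 2 ≤ z1) (hw : 1 ≤ w) (hwy : w ≤ y) (hzk : z ^ k0 ≤ B) (hz1k : z1 ^ k0 ≤ B)
    (hyk : y ^ k0 ≤ B) (hMk : M0 ^ k0 ≤ B) :
    ∑ M ∈ (PP w y).divisors.filter (fun M => M ≤ M0), ∑ j ∈ Wn ρ M, AA (NN c z z1) w y ρ T (4 * B) M j ≤
      8 * C * ((T : ℝ) * B) *
        (VW w y ^ 2 * ∑ M ∈ (PP w y).divisors, ((Wn ρ M).card : ℝ) / (Nat.totient M : ℝ)) := by
  calc _ ≤ ∑ M ∈ (PP w y).divisors.filter (fun M => M ≤ M0), ((Wn ρ M).card : ℝ) *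
        (8 * C * ((T : ℝ) * B) * (VW w y ^ 2 * (1 / (Nat.totient M : ℝ)))) := by
        refine sum_le_sum fun M hM => ?_
        rw [mem_filter, Nat.mem_divisors] at hM
        rw [← nsmul_eq_mul]
        exact sum_le_card_nsmul _ _ _ fun j hj => aa_le hC hU hB hT hT2 hM0 hρ1 hρ2 hz hz1 hw hwy hzk
          hz1k hyk hMk hM.1.1 hM.2 hj
    _ ≤ ∑ M ∈ (PP w y).divisors, ((Wn ρ M).card : ℝ) *
        (8 * C * ((T : ℝ) * B) * (VW w y ^ 2 * (1 / (Nat.totient M : ℝ)))) :=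
        sum_le_sum_of_subset_of_nonneg (filter_subset _ _) fun M _ _ => by positivity
    _ = _ := by
        rw [mul_sum, mul_sum]
        refine sum_congr rfl fun M _ => ?_
        ring

/-- the diagonal -/
lemma diag_sum {c : ℤ} {C : ℝ} {k0 B : ℕ} (hC : 0 < C) (hU : U1At c C k0 B) {z z1 w y M0 T : ℕ} {ρ : ℝ}
    (hB : 2 ^ 60 ≤ B) (hT : B ≤ T ^ 2) (hT2 : T ≤ B) (hM0 : M0 ^ 16 ≤ B) (hρ1 : 1 < ρ) (hρ2 : ρ ≤ 2)
    (hz : 2 ≤ z) (hz1 : 2 ≤ z1) (hw : 1 ≤ w) (hwy : w ≤ y) (hzk : z ^ k0 ≤ B) (hz1k : z1 ^ k0 ≤ B)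
    (hyk : y ^ k0 ≤ B) (hMk : M0 ^ k0 ≤ B) :
    ∑ M ∈ (PP w y).divisors.filter (fun M => M ≤ M0), ∑ j ∈ Wn ρ M,
      ((Dv ρ M j).card : ℝ) * AA (NN c z z1) w y ρ T (4 * B) M j ≤ 8 * C * ((T : ℝ) * B) := by
  calc _ ≤ ∑ M ∈ (PP w y).divisors.filter (fun M => M ≤ M0), (M.divisors.card : ℝ) *
        (8 * C * ((T : ℝ) * B) * (VW w y ^ 2 * (1 / (Nat.totient M : ℝ)))) := by
        refine sum_le_sum fun M hM => ?_
        rw [mem_filter, Nat.mem_divisors] at hM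
        rw [← sum_card_Dv_r ρ M, sum_mul]
        exact sum_le_sum fun j hj => mul_le_mul_of_nonneg_left (aa_le hC hU hB hT hT2 hM0 hρ1 hρ2 hz
          hz1 hw hwy hzk hz1k hyk hMk hM.1.1 hM.2 hj) (by positivity)
    _ ≤ ∑ M ∈ (PP w y).divisors, (M.divisors.card : ℝ) *
        (8 * C * ((T : ℝ) * B) * (VW w y ^ 2 * (1 / (Nat.totient M : ℝ)))) :=
        sum_le_sum_of_subset_of_nonneg (filter_subset _ _) fun M _ _ => by positivity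
    _ = 8 * C * ((T : ℝ) * B) *
        (VW w y ^ 2 * ∑ M ∈ (PP w y).divisors, (M.divisors.card : ℝ) / (Nat.totient M : ℝ)) := by
        rw [mul_sum, mul_sum]
        refine sum_congr rfl fun M _ => ?_
        ring
    _ ≤ 8 * C * ((T : ℝ) * B) * 1 := mul_le_mul_of_nonneg_left (sum2 w y) (by positivity)
    _ = _ := mul_one _

/-- the weight -/
def ph (a : ℤ) (T : ℕ) (F : ℤ → ℝ) (u v : ℕ) : ℝ := if u ≤ T then F ((v : ℤ) - a * u) else 0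

/-- one off-diagonal term -/
lemma off_le {a c : ℤ} {δ ε η : ℝ} {z z1 w y M0 B H T : ℕ} {F : ℤ → ℝ}
    (hO : OFFAt a c δ z z1 w y M0 B F) (hS : SPAt a c ε η z w y M0 B H F) {ρ : ℝ}
    (hB : 2 ^ 60 ≤ B) (hT : B ≤ T ^ 2) (hT2 : T ≤ B) (hM0 : M0 ^ 16 ≤ B) (hρ1 : 1 < ρ) (hρ2 : ρ ≤ 2)
    (hη : 0 < η) (hH : (H : ℝ) * (4 * M0) ≤ η * T)
    (hδ : 0 ≤ δ + 2 * ε) {M j m m' : ℕ} (hM : M ∣ PP w y) (hMM : M ≤ M0) (hj : j ∈ Wn ρ M)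
    (hm : m ∈ Dv ρ M j) (hm' : m' ∈ Dv ρ M j) (hmm : m ≠ m') :
    |∑ x ∈ Icc 1 ⌊(T : ℝ) / ρ ^ (j + 1)⌋₊, ∑ t ∈ Icc 1 ⌊((4 * B : ℕ) : ℝ) * ρ ^ (j + 1) / M⌋₊,
      rg w y x * rg w y t * NN c z z1 (M * x * t) *
        (ph a T F (m * x) (M / m * t) * ph a T F (m' * x) (M / m' * t))| ≤
      (δ + 2 * ε) * (4 * ((T : ℝ) * B) / M) := by
  have hM1 : 1 ≤ M := Nat.pos_of_dvd_of_pos hM (PP_pos w y)
  obtain ⟨r1, r2, r3, r4, r5, r6, r7⟩ := rng hB hT hT2 hM0 hM1 hMM hρ1 hρ2 hj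
  have hmx : ∀ x ∈ Icc 1 ⌊(T : ℝ) / ρ ^ (j + 1)⌋₊, m * x ≤ T := fun x hx => mx_le hρ1 hm hx
  have hmx' : ∀ x ∈ Icc 1 ⌊(T : ℝ) / ρ ^ (j + 1)⌋₊, m' * x ≤ T := fun x hx => mx_le hρ1 hm' hx
  set X := ⌊(T : ℝ) / ρ ^ (j + 1)⌋₊ with hX
  set Y := ⌊((4 * B : ℕ) : ℝ) * ρ ^ (j + 1) / M⌋₊ with hY
  have hdm : m ∣ M := (Nat.mem_divisors.1 (mem_Dv.1 hm).1).1
  have hdm' : m' ∣ M := (Nat.mem_divisors.1 (mem_Dv.1 hm').1).1
  have hM0r : (1 : ℝ) ≤ M0 := by exact_mod_cast hM1.trans hMM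
  have hHX : (H : ℝ) ≤ η * X := by
    have h1 : (H : ℝ) * (4 * M0) ≤ (η * X) * (4 * M0) := by
      calc (H : ℝ) * (4 * M0) ≤ η * T := hH
        _ ≤ η * (4 * M0 * X) := mul_le_mul_of_nonneg_left r6 hη.le
        _ = _ := by ring
    exact le_of_mul_le_mul_right h1 (by positivity)
  have h1 := hO X Y M m m' hM hMM hdm hdm' hmm r1 r2 r4 (r7 m hm) (r7 m' hm')
  have h2 := hS X Y M m m' hM hMM hdm hdm' hmm hHX r1 r2 r4 (r7 m hm) (r7 m' hm')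
  have e : ∑ x ∈ Icc 1 X, ∑ t ∈ Icc 1 Y,
      rg w y x * rg w y t * NN c z z1 (M * x * t) *
        (ph a T F (m * x) (M / m * t) * ph a T F (m' * x) (M / m' * t)) =
      (∑ x ∈ Icc 1 X, ∑ t ∈ Icc 1 Y, rg w y x * rg w y t * dz z z1 ((M : ℤ) * x * t + c) *
        F (((M / m : ℕ) : ℤ) * t - a * m * x) * F (((M / m' : ℕ) : ℤ) * t - a * m' * x)) +
      2 * ∑ x ∈ Icc 1 X, ∑ t ∈ Icc 1 Y, rg w y x * rg w y t * lz z ((M : ℤ) * x * t + c) *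
        F (((M / m : ℕ) : ℤ) * t - a * m * x) * F (((M / m' : ℕ) : ℤ) * t - a * m' * x) := by
    rw [mul_sum, ← sum_add_distrib]
    refine sum_congr rfl fun x hx => ?_
    rw [mul_sum, ← sum_add_distrib]
    refine sum_congr rfl fun t _ => ?_
    have f1 : ph a T F (m * x) (M / m * t) = F (((M / m : ℕ) : ℤ) * t - a * m * x) := by
      unfold ph
      rw [if_pos (hmx x hx), Nat.cast_mul, Nat.cast_mul]
      congr 1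
      ring
    have f2 : ph a T F (m' * x) (M / m' * t) = F (((M / m' : ℕ) : ℤ) * t - a * m' * x) := by
      unfold ph
      rw [if_pos (hmx' x hx), Nat.cast_mul, Nat.cast_mul]
      congr 1
      ring
    have f3 : NN c z z1 (M * x * t) = dz z z1 ((M : ℤ) * x * t + c) + 2 * lz z ((M : ℤ) * x * t + c) := by
      unfold NN dz
      rw [Nat.cast_mul, Nat.cast_mul]
      ring
    rw [f1, f2, f3]
    ring
  rw [e]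
  have h3 : (X : ℝ) * Y ≤ 4 * ((T : ℝ) * B) / M := by
    refine r5.trans (le_of_eq ?_)
    ring
  calc _ ≤ |∑ x ∈ Icc 1 X, ∑ t ∈ Icc 1 Y, rg w y x * rg w y t * dz z z1 ((M : ℤ) * x * t + c) *
        F (((M / m : ℕ) : ℤ) * t - a * m * x) * F (((M / m' : ℕ) : ℤ) * t - a * m' * x)| +
        |2 * ∑ x ∈ Icc 1 X, ∑ t ∈ Icc 1 Y, rg w y x * rg w y t * lz z ((M : ℤ) * x * t + c) *
        F (((M / m : ℕ) : ℤ) * t - a * m * x) * F (((M / m' : ℕ) : ℤ) * t - a * m' * x)| :=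
        abs_add_le _ _
    _ ≤ δ * ((X : ℝ) * Y) + 2 * (ε * ((X : ℝ) * Y)) := by
        rw [abs_mul, abs_two]
        linarith
    _ = (δ + 2 * ε) * ((X : ℝ) * Y) := by ring
    _ ≤ _ := mul_le_mul_of_nonneg_left h3 hδ

/-- the sum of the `DD` -/
lemma dd_sum {a c : ℤ} {C : ℝ} {k0 B : ℕ} (hC : 0 < C) (hU : U1At c C k0 B) {z z1 w y M0 T H : ℕ}
    {δ ε η : ℝ} {F : ℤ → ℝ} {ρ : ℝ}
    (hB : 2 ^ 60 ≤ B) (hT : B ≤ T ^ 2) (hT2 : T ≤ B) (hM0 : M0 ^ 16 ≤ B) (hρ1 : 1 < ρ) (hρ2 : ρ ≤ 2)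
    (hz : 2 ≤ z) (hz1 : 2 ≤ z1) (hw : 1 ≤ w) (hwy : w ≤ y) (hzk : z ^ k0 ≤ B) (hz1k : z1 ^ k0 ≤ B)
    (hyk : y ^ k0 ≤ B) (hMk : M0 ^ k0 ≤ B) (hF : ∀ b, |F b| ≤ 1)
    (hO : OFFAt a c δ z z1 w y M0 B F) (hS : SPAt a c ε η z w y M0 B H F)
    (hη : 0 < η) (hH : (H : ℝ) * (4 * M0) ≤ η * T) (hδ : 0 ≤ δ + 2 * ε)
    (hδ2 : (δ + 2 * ε) * (VW w y)⁻¹ ^ 4 ≤ 2) :
    ∑ M ∈ (PP w y).divisors.filter (fun M => M ≤ M0), ∑ j ∈ Wn ρ M,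
      DD (ph a T F) (NN c z z1) w y ρ T (4 * B) M j ≤ (8 * C + 8) * ((T : ℝ) * B) := by
  have hph : ∀ u v, |ph a T F u v| ≤ 1 := by
    intro u v
    unfold ph
    split_ifs
    · exact hF _
    · rw [abs_zero]
      exact zero_le_one
  have e1 : ∑ M ∈ (PP w y).divisors.filter (fun M => M ≤ M0), ∑ j ∈ Wn ρ M,
      DD (ph a T F) (NN c z z1) w y ρ T (4 * B) M j ≤
      ∑ M ∈ (PP w y).divisors.filter (fun M => M ≤ M0), (∑ j ∈ Wn ρ M,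
        ((Dv ρ M j).card : ℝ) * AA (NN c z z1) w y ρ T (4 * B) M j +
        (δ + 2 * ε) * (4 * ((T : ℝ) * B) / M) * (M.divisors.card : ℝ) ^ 2) := by
    refine sum_le_sum fun M hM => ?_
    rw [mem_filter, Nat.mem_divisors] at hM
    have h1 : ∀ j ∈ Wn ρ M, DD (ph a T F) (NN c z z1) w y ρ T (4 * B) M j ≤
        ((Dv ρ M j).card : ℝ) * AA (NN c z z1) w y ρ T (4 * B) M j +
        (δ + 2 * ε) * (4 * ((T : ℝ) * B) / M) * ((Dv ρ M j).card : ℝ) ^ 2 := by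
      intro j hj
      refine (dd_expand hph (NN_nonneg c z z1) w y ρ T (4 * B) M j).trans (add_le_add le_rfl ?_)
      have hnn : 0 ≤ (δ + 2 * ε) * (4 * ((T : ℝ) * B) / M) := mul_nonneg hδ (by positivity)
      calc _ ≤ ∑ m ∈ Dv ρ M j, ∑ m' ∈ (Dv ρ M j).erase m, (δ + 2 * ε) * (4 * ((T : ℝ) * B) / M) := by
            refine sum_le_sum fun m hm => sum_le_sum fun m' hm' => ?_
            rw [mem_erase] at hm'
            exact off_le hO hS hB hT hT2 hM0 hρ1 hρ2 hη hH hδ hM.1.1 hM.2 hj hm hm'.2 hm'.1.symm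
        _ ≤ ∑ m ∈ Dv ρ M j, ∑ m' ∈ Dv ρ M j, (δ + 2 * ε) * (4 * ((T : ℝ) * B) / M) := by
            refine sum_le_sum fun m _ => ?_
            exact sum_le_sum_of_subset_of_nonneg (erase_subset _ _) fun _ _ _ => hnn
        _ = _ := by
            rw [sum_const, sum_const, nsmul_eq_mul, nsmul_eq_mul]
            ring
    calc _ ≤ ∑ j ∈ Wn ρ M, (((Dv ρ M j).card : ℝ) * AA (NN c z z1) w y ρ T (4 * B) M j +
        (δ + 2 * ε) * (4 * ((T : ℝ) * B) / M) * ((Dv ρ M j).card : ℝ) ^ 2) := sum_le_sum h1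
      _ = ∑ j ∈ Wn ρ M, ((Dv ρ M j).card : ℝ) * AA (NN c z z1) w y ρ T (4 * B) M j +
        (δ + 2 * ε) * (4 * ((T : ℝ) * B) / M) * ∑ j ∈ Wn ρ M, ((Dv ρ M j).card : ℝ) ^ 2 := by
          rw [sum_add_distrib, mul_sum]
      _ ≤ _ := by
          have := mul_le_mul_of_nonneg_left (sum_card_Dv_sq ρ M)
            (mul_nonneg hδ (by positivity : 0 ≤ 4 * ((T : ℝ) * B) / M))
          linarith
  rw [sum_add_distrib] at e1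
  have e2 := diag_sum (c := c) hC hU hB hT hT2 hM0 hρ1 hρ2 hz hz1 hw hwy hzk hz1k hyk hMk
  have e3 : ∑ M ∈ (PP w y).divisors.filter (fun M => M ≤ M0),
      (δ + 2 * ε) * (4 * ((T : ℝ) * B) / M) * (M.divisors.card : ℝ) ^ 2 ≤ 8 * ((T : ℝ) * B) := by
    calc _ ≤ ∑ M ∈ (PP w y).divisors,
        (δ + 2 * ε) * (4 * ((T : ℝ) * B) / M) * (M.divisors.card : ℝ) ^ 2 :=
          sum_le_sum_of_subset_of_nonneg (filter_subset _ _) fun M _ _ =>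
            mul_nonneg (mul_nonneg hδ (by positivity)) (by positivity)
      _ = (δ + 2 * ε) * (4 * ((T : ℝ) * B)) *
          ∑ M ∈ (PP w y).divisors, (M.divisors.card : ℝ) ^ 2 / (M : ℝ) := by
          rw [mul_sum]
          refine sum_congr rfl fun M _ => ?_
          ring
      _ ≤ (δ + 2 * ε) * (4 * ((T : ℝ) * B)) * (VW w y)⁻¹ ^ 4 :=
          mul_le_mul_of_nonneg_left (sum4 w y) (mul_nonneg hδ (by positivity))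
      _ = ((δ + 2 * ε) * (VW w y)⁻¹ ^ 4) * (4 * ((T : ℝ) * B)) := by ring
      _ ≤ 2 * (4 * ((T : ℝ) * B)) := mul_le_mul_of_nonneg_right hδ2 (by positivity)
      _ = _ := by ring
  linarith

open Classical in
/-- the bad part -/
lemma bad_sum {c : ℤ} {C : ℝ} {k0 B : ℕ} (hBd : BADAt c C k0 B) {z z1 w y M0 T : ℕ} {ρ : ℝ}
    (hB : 2 ^ 60 ≤ B) (hT : B ≤ T ^ 2) (hT2 : T ≤ B) (hM1 : 1 ≤ M0) (hρ1 : 1 + 1 / Real.log B ≤ ρ)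
    (hρ2 : ρ ≤ 2)
    (hz : 2 ≤ z) (hz1 : 2 ≤ z1) (hw : 2 ≤ w) (hwy : w ≤ y) (hzk : z ^ k0 ≤ B) (hz1k : z1 ^ k0 ≤ B)
    (hyk : y ^ k0 ≤ B) (hMk : M0 ^ k0 ≤ B) :
    ∑ u ∈ Icc 1 T, ∑ v ∈ Icc 1 (4 * B), (if Bad T w y M0 ρ u v then NN c z z1 (u * v) else 0) ≤
      8 * C * ((T : ℝ) * B) *
        (1 / w + (ρ - 1) + Real.log y ^ C * Real.exp (-(Real.log M0 / (2 * Real.log y)))) := by
  have hBp : 1 ≤ B := le_trans (by norm_num) hB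
  have b1 : T ≤ B ^ 2 := hT2.trans (Nat.le_self_pow (by norm_num) B)
  have b2 : B ≤ (4 * B) ^ 2 := by nlinarith
  have b3 : 4 * B ≤ B ^ 2 := by
    have : 4 ≤ B := le_trans (by norm_num) hB
    nlinarith
  have h1 := hBd z1 w y M0 T (4 * B) ρ hz1 hz1k hw hwy hyk hM1 hMk hT b1 b2 b3 hρ1 hρ2
  have h2 := hBd z w y M0 T (4 * B) ρ hz hzk hw hwy hyk hM1 hMk hT b1 b2 b3 hρ1 hρ2
  have e : ∑ u ∈ Icc 1 T, ∑ v ∈ Icc 1 (4 * B), (if Bad T w y M0 ρ u v then NN c z z1 (u * v) else 0) =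
      ∑ u ∈ Icc 1 T, ∑ v ∈ Icc 1 (4 * B), (if Bad T w y M0 ρ u v then lz z1 ((u : ℤ) * v + c) else 0) +
      ∑ u ∈ Icc 1 T, ∑ v ∈ Icc 1 (4 * B), (if Bad T w y M0 ρ u v then lz z ((u : ℤ) * v + c) else 0) := by
    rw [← sum_add_distrib]
    refine sum_congr rfl fun u _ => ?_
    rw [← sum_add_distrib]
    refine sum_congr rfl fun v _ => ?_
    split_ifs
    · unfold NN
      rw [Nat.cast_mul]
    · rw [add_zero]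
  rw [e]
  push_cast at h1 h2
  have e4 : 8 * C * ((T : ℝ) * B) *
        (1 / w + (ρ - 1) + Real.log y ^ C * Real.exp (-(Real.log M0 / (2 * Real.log y)))) =
      2 * (C * ((T : ℝ) * (4 * B)) *
        (1 / w + (ρ - 1) + Real.log y ^ C * Real.exp (-(Real.log M0 / (2 * Real.log y))))) := by ring
  rw [e4]
  linarith

end

end Pool.Agent.N756.QL
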